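import Mathlib

namespace Pool.Agent.Results.MP_9d6809_an.Counter

open MeasureTheory Set Filter
open scoped InnerProductSpace

/-- `Ω` multi-tiles `ℝ` by the lattice `ℤ` at level `k`. -/
def MultiTiles (Ω : Set ℝ) (k : ℕ) : Prop :=
  MeasurableSet Ω ∧ 0 < volume Ω ∧ volume Ω < ⊤ ∧
    ∀ᵐ x : ℝ, {n : ℤ | x - n ∈ Ω}.encard = k

/-- The function `e^{2πiγx} χ_Ω(x - n)`. -/
noncomputable def atom (Ω : Set ℝ) (n : ℤ) (γ : ℝ) (x : ℝ) : ℂ :=
  Complex.exp (2 * Real.pi * Complex.I * γ * x) * Ω.indicator (fun _ => (1 : ℂ)) (x - n)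

/-- The Gabor system `𝒢(χ_Ω, ℤ × Γ)` as a subset of `L²(ℝ)`. -/
def gabor (Ω Γ : Set ℝ) : Set (Lp ℂ 2 (volume : Measure ℝ)) :=
  {f | ∃ n : ℤ, ∃ γ ∈ Γ, f =ᵐ[volume] atom Ω n γ}

/-- `S` is the image of an orthonormal basis under a bounded invertible operator. -/
def IsRieszBasis {H : Type} [NormedAddCommGroup H] [InnerProductSpace ℂ H] (S : Set H) : Prop :=
  ∃ (ι : Type) (b : HilbertBasis ι ℂ H) (T : H ≃L[ℂ] H), range (fun i => T (b i)) = S

lemma tiles (k : ℕ) (hk : 2 ≤ k) : MultiTiles (Ico 0 (k : ℝ)) k := by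
  have hk' : (0 : ℝ) < k := by exact_mod_cast (by omega : 0 < k)
  refine ⟨measurableSet_Ico, by simpa using (by omega : 0 < k), by simp, Eventually.of_forall fun x => ?_⟩
  have : {n : ℤ | x - n ∈ Ico 0 (k : ℝ)} = ↑(Finset.Ioc (⌊x⌋ - k) ⌊x⌋) := by
    ext n
    simp only [mem_ofPred_eq, mem_Ico, Finset.coe_Ioc, mem_Ioc, sub_nonneg, Int.le_floor,
      sub_lt_iff_lt_add]
    rw [Int.floor_lt]
    push_cast
    constructor
    · rintro ⟨h1, h2⟩; exact ⟨by linarith, h1⟩
    · rintro ⟨h1, h2⟩; exact ⟨h2, by linarith⟩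
  rw [this, encard_coe_eq_coe_finsetCard]
  simp

lemma norm_e (γ x : ℝ) : ‖Complex.exp (2 * Real.pi * Complex.I * γ * x)‖ = 1 := by
  have : (2 * Real.pi * Complex.I * γ * x : ℂ) = ((2 * Real.pi * γ * x : ℝ) : ℂ) * Complex.I := by
    push_cast; ring
  rw [this, Complex.norm_exp_ofReal_mul_I]

noncomputable def ind (a : ℝ) : Lp ℝ 2 (volume : Measure ℝ) :=
  indicatorConstLp 2 (measurableSet_Ico (a := a) (b := a + 1)) (by simp) (1 : ℝ)

lemma ind_norm (a : ℝ) : ‖ind a‖ = 1 := by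
  rw [ind, norm_indicatorConstLp (by norm_num) (by norm_num)]
  simp [Measure.real]

lemma ind_ae (a : ℝ) : ind a =ᵐ[volume] (Ico a (a + 1)).indicator fun _ => (1 : ℝ) :=
  indicatorConstLp_coeFn

lemma atom_mem (k : ℕ) (n : ℤ) (γ : ℝ) : MemLp (atom (Ico 0 (k : ℝ)) n γ) 2 volume := by
  have hm : MemLp ((Ico (n : ℝ) (n + k)).indicator fun _ => (1 : ℝ)) 2 volume :=
    memLp_indicator_const 2 measurableSet_Ico 1 (Or.inr (by simp))
  refine hm.of_le ?_ (Eventually.of_forall fun x => ?_)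
  · refine Measurable.aestronglyMeasurable ?_
    unfold atom
    exact Measurable.mul (by fun_prop)
      ((measurable_const.indicator measurableSet_Ico).comp (by fun_prop))
  · rw [atom, norm_mul, norm_e, one_mul]
    by_cases h : x - n ∈ Ico 0 (k : ℝ)
    · have h' : x ∈ Ico (n : ℝ) (n + k) := ⟨by linarith [h.1], by linarith [h.2]⟩
      simp [h, h']
    · simp [h, norm_nonneg]

lemma step (k : ℕ) (hk : 2 ≤ k) (a x : ℝ) :
    (Ico 0 (k : ℝ)).indicator (fun _ => (1 : ℂ)) (x - a)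
      - (Ico 0 (k : ℝ)).indicator (fun _ => (1 : ℂ)) (x - (a + 1))
    = (Ico a (a + 1)).indicator (fun _ => (1 : ℂ)) x
      - (Ico (a + k) (a + k + 1)).indicator (fun _ => (1 : ℂ)) x := by
  have hk' : (2 : ℝ) ≤ k := by exact_mod_cast hk
  simp only [indicator, mem_Ico]
  split_ifs <;> first | (simp; done) | (exfalso; grind)

theorem result (k : ℕ) (hk : 2 ≤ k) :
    MultiTiles (Ico 0 (k : ℝ)) k ∧ ∀ Γ : Set ℝ, ¬ IsRieszBasis (gabor (Ico 0 (k : ℝ)) Γ) := by
  refine ⟨tiles k hk, fun Γ ⟨ι, b, T, hT⟩ => ?_⟩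
  have hk' : (2 : ℝ) ≤ k := by exact_mod_cast hk
  have hne : ∀ γ : ℝ, ∀ n m : ℤ, n < m →
      ¬ atom (Ico 0 (k : ℝ)) n γ =ᵐ[volume] atom (Ico 0 (k : ℝ)) m γ := by
    intro γ n m hnm h
    have hnm' : (n : ℝ) + 1 ≤ m := by exact_mod_cast hnm
    have : volume (Ico (n : ℝ) (n + 1)) = 0 := by
      refine measure_mono_null (fun x hx => ?_) h
      have h1 : x - n ∈ Ico 0 (k : ℝ) := ⟨by linarith [hx.1], by linarith [hx.2]⟩
      have h2 : x - m ∉ Ico 0 (k : ℝ) := fun h => by linarith [h.1, hx.2]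
      simp [atom, h1, h2]
    simp at this
  rcases Γ.eq_empty_or_nonempty with rfl | ⟨γ, hγ⟩
  · have he : IsEmpty ι := ⟨fun i => by
      have : T (b i) ∈ gabor (Ico 0 (k : ℝ)) ∅ := hT ▸ mem_range_self i
      simp [gabor] at this⟩
    have hz : ∀ f : Lp ℂ 2 (volume : Measure ℝ), f = 0 := fun f =>
      b.repr.injective (by ext i; exact he.elim i)
    refine hne 0 0 1 (by norm_num) ?_
    have h0 := (atom_mem k 0 0).coeFn_toLp
    have h1 := (atom_mem k 1 0).coeFn_toLp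
    rw [hz (MemLp.toLp _ _)] at h0 h1
    exact h0.symm.trans h1
  have hex : ∀ n : ℤ, ∃ i, T (b i) =ᵐ[volume] atom (Ico 0 (k : ℝ)) n γ := by
    intro n
    have : (atom_mem k n γ).toLp ∈ gabor (Ico 0 (k : ℝ)) Γ :=
      ⟨n, γ, hγ, (atom_mem k n γ).coeFn_toLp⟩
    rw [← hT] at this
    obtain ⟨i, hi⟩ := this
    exact ⟨i, by rw [show T (b i) = _ from hi]; exact (atom_mem k n γ).coeFn_toLp⟩
  choose I hI using hex
  have hinj : Function.Injective I := by
    intro n m h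
    by_contra hnm
    have e : atom (Ico 0 (k : ℝ)) n γ =ᵐ[volume] atom (Ico 0 (k : ℝ)) m γ :=
      (hI n).symm.trans (h ▸ hI m)
    rcases lt_or_gt_of_ne hnm with h' | h'
    · exact hne γ n m h' e
    · exact hne γ m n h' e.symm
  set W : ℕ → Lp ℂ 2 (volume : Measure ℝ) :=
    fun N => ∑ j ∈ Finset.range N, (b (I (j * k)) - b (I (j * k + 1))) with hW
  have hae : ∀ N : ℕ, T (W N) =ᵐ[volume] fun x : ℝ =>
      Complex.exp (2 * Real.pi * Complex.I * γ * x) * ((Ico (0 : ℝ) (0 + 1)).indicator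
        (fun _ => (1 : ℂ)) x - (Ico ((N : ℝ) * k) (N * k + 1)).indicator (fun _ => (1 : ℂ)) x) := by
    intro N
    induction N with
    | zero =>
      simp only [hW, Finset.range_zero, Finset.sum_empty, map_zero]
      filter_upwards [Lp.coeFn_zero ℂ 2 (volume : Measure ℝ)] with x hx
      rw [hx]; simp
    | succ N ih =>
      have e : T (W (N + 1)) = T (W N) + (T (b (I (N * k))) - T (b (I (N * k + 1)))) := by
        simp only [hW, Finset.sum_range_succ, map_add, map_sub]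
      rw [e]
      filter_upwards [ih, hI (N * k), hI (N * k + 1), Lp.coeFn_add (T (W N))
        (T (b (I (N * k))) - T (b (I (N * k + 1)))),
        Lp.coeFn_sub (T (b (I (N * k)))) (T (b (I (N * k + 1))))] with x h1 h2 h3 h4 h5
      rw [h4, Pi.add_apply, h5, Pi.sub_apply, h1, h2, h3]
      have := step k hk (N * k) x
      simp only [atom]
      push_cast
      rw [show ((N : ℝ) + 1) * k = N * k + k by ring]
      linear_combination Complex.exp (2 * Real.pi * Complex.I * γ * x) * this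
  have hb : ∀ N : ℕ, ‖T (W N)‖ ≤ 2 := by
    intro N
    have h1 : ‖T (W N)‖ ≤ ‖ind 0 + ind (N * k)‖ := by
      apply Lp.norm_le_norm_of_ae_le
      filter_upwards [hae N, Lp.coeFn_add (ind 0) (ind (N * k)),
        ind_ae 0, ind_ae (N * k)] with x h1 h2 h3 h4
      rw [h1, h2, Pi.add_apply, h3, h4, norm_mul, norm_e, one_mul]
      simp only [indicator]
      split_ifs <;> norm_num
    linarith [norm_add_le (ind 0) (ind (N * k)), ind_norm 0, ind_norm (N * k)]
  have hk0 : (k : ℤ) ≠ 0 := by omega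
  have ho : Orthonormal ℂ (fun j : ℕ => b (I (j * k))) :=
    b.orthonormal.comp (fun j : ℕ => I (j * k)) fun i j h => by
      have := mul_right_cancel₀ hk0 (hinj h); exact_mod_cast this
  have hin : ∀ N m : ℕ, m < N → ⟪b (I (m * k)), W N⟫_ℂ = 1 := by
    intro N m hm
    classical
    simp only [hW, inner_sum, inner_sub_right]
    have h2 : ∀ j : ℕ, ⟪b (I (m * k)), b (I (j * k + 1))⟫_ℂ = 0 := fun j =>
      b.orthonormal.2 fun h => by
        have h3 := hinj h
        have h4 : (k : ℤ) ∣ 1 := ⟨m - j, by linear_combination -h3⟩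
        have := Int.le_of_dvd one_pos h4
        omega
    simp only [h2, sub_zero, orthonormal_iff_ite.mp ho]
    simp [hm]
  set C := ‖T.symm.toContinuousLinearMap‖ * 2
  have hC : ∀ N, ‖W N‖ ≤ C := by
    intro N
    have h := T.symm.toContinuousLinearMap.le_opNorm (T (W N))
    simp only [ContinuousLinearEquiv.coe_coe, ContinuousLinearEquiv.symm_apply_apply] at h
    exact h.trans (mul_le_mul_of_nonneg_left (hb N) (norm_nonneg _))
  obtain ⟨N, hN⟩ := exists_nat_gt (C ^ 2)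
  have h1 := ho.sum_inner_products_le (s := Finset.range N) (W N)
  rw [Finset.sum_congr rfl fun m hm => by rw [hin N m (Finset.mem_range.mp hm)]] at h1
  simp at h1
  nlinarith [hC N, norm_nonneg (W N)]

end Pool.Agent.Results.MP_9d6809_an.Counter
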